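import Pool.Agent.H13.EE.Main

/-!
# `exp (exp 1)` is not the `n`-th power of a rational number with small denominator

If `n ≥ 1` and `1 ≤ b ≤ n max (1, (log n) ^ (1 / 13) / 8)`, then `exp (exp 1) ≠ (a / b) ^ n` for
every integer `a`.
-/

set_option autoImplicit false

namespace Pool.Agent.Results.MP_58ae59_nt.PerfectPowers

/-- `e ^ e` is not the `n`-th power of a rational number whose denominator is at most
`n max (1, (log n) ^ (1 / 13) / 8)`. -/
theorem result : ∀ n b : ℕ, 1 ≤ n → 1 ≤ b →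
    (b : ℝ) ≤ n * max 1 ((Real.log n) ^ (1 / 13 : ℝ) / 8) →
    ∀ a : ℤ, Real.exp (Real.exp 1) ≠ ((a : ℝ) / b) ^ n := by
  intro n b hn hb h a hEq
  have hn' : (1 : ℝ) ≤ n := by exact_mod_cast hn
  have hb' : (1 : ℝ) ≤ b := by exact_mod_cast hb
  refine H13.EE.main_thm n b hn hb h |a| ?_
  have h1 : Real.exp (Real.exp 1) = (|(a : ℝ)| / b) ^ n := by
    have h2 : |Real.exp (Real.exp 1)| = Real.exp (Real.exp 1) := abs_of_pos (Real.exp_pos _)
    rw [← h2, hEq, abs_pow, abs_div, abs_of_pos (show (0 : ℝ) < b by linarith)]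
  have h3 : Real.exp (Real.exp 1 / n) ^ n = (|(a : ℝ)| / b) ^ n := by
    rw [← h1, ← Real.exp_nat_mul]
    congr 1
    field_simp
  have h4 : Real.exp (Real.exp 1 / n) = |(a : ℝ)| / b :=
    (pow_left_inj₀ (Real.exp_pos _).le (by positivity) (by omega)).mp h3
  rw [h4]
  push_cast
  field_simp

end Pool.Agent.Results.MP_58ae59_nt.PerfectPowers
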